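import Pool.Agent.Lib.MP_af3a4a_an.P1.CHK.DATA.N38x39.K0
import Pool.Agent.Lib.MP_af3a4a_an.P1.CHK.DATA.N38x39.K1
import Pool.Agent.Lib.MP_af3a4a_an.P1.CHK.DATA.N38x39.K2
import Pool.Agent.Lib.MP_af3a4a_an.P1.CHK.DATA.N38x39.K3

/-! glue for 38 <= N <= 39 (generated) -/

set_option autoImplicit false
set_option maxRecDepth 100000

namespace Pool.Agent.Lib.MP_af3a4a_an.P1.CHK.DATA.N38x39

open BOX

theorem g0 : ChunkP 38 39 0 512 0 101 0 2484 := ChunkP.g k0 k1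
theorem g1 : ChunkP 38 39 512 1024 64 80 1200 2484 := ChunkP.r k6 k7
theorem g2 : ChunkP 38 39 512 1024 64 80 1152 2484 := ChunkP.R k5 g1
theorem g3 : ChunkP 38 39 512 1024 64 80 624 2484 := ChunkP.R k4 g2
theorem g4 : ChunkP 38 39 512 1024 64 80 0 2484 := ChunkP.R k3 g3
theorem g5 : ChunkP 38 39 512 768 80 96 1632 2484 := ChunkP.R k14 k15
theorem g6 : ChunkP 38 39 512 768 80 96 1488 2484 := ChunkP.R k13 g5
theorem g7 : ChunkP 38 39 512 768 80 96 1200 2484 := ChunkP.R k12 g6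
theorem g8 : ChunkP 38 39 768 1024 80 88 1584 2484 := ChunkP.r k21 k22
theorem g9 : ChunkP 38 39 768 1024 80 88 1536 2484 := ChunkP.R k20 g8
theorem g10 : ChunkP 38 39 768 1024 80 88 1488 2484 := ChunkP.R k19 g9
theorem g11 : ChunkP 38 39 768 1024 80 88 1344 2484 := ChunkP.R k18 g10
theorem g12 : ChunkP 38 39 768 1024 80 96 1344 2484 := ChunkP.g g11 k23
theorem g13 : ChunkP 38 39 768 1024 80 96 1296 2484 := ChunkP.R k17 g12
theorem g14 : ChunkP 38 39 768 1024 80 96 1200 2484 := ChunkP.R k16 g13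
theorem g15 : ChunkP 38 39 512 1024 80 96 1200 2484 := ChunkP.r g7 g14
theorem g16 : ChunkP 38 39 512 1024 80 96 1152 2484 := ChunkP.R k11 g15
theorem g17 : ChunkP 38 39 512 1024 80 96 816 2484 := ChunkP.R k10 g16
theorem g18 : ChunkP 38 39 512 1024 80 96 720 2484 := ChunkP.R k9 g17
theorem g19 : ChunkP 38 39 512 1024 80 96 0 2484 := ChunkP.R k8 g18
theorem g20 : ChunkP 38 39 512 1024 64 96 0 2484 := ChunkP.g g4 g19
theorem g21 : ChunkP 38 39 512 1024 64 101 0 2484 := ChunkP.g g20 k24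
theorem g22 : ChunkP 38 39 512 1024 0 101 0 2484 := ChunkP.g k2 g21
theorem g23 : ChunkP 38 39 0 1024 0 101 0 2484 := ChunkP.r g0 g22
theorem g24 : ChunkP 38 39 1024 1280 72 80 1632 2484 := ChunkP.r k37 k38
theorem g25 : ChunkP 38 39 1024 1280 72 80 1584 2484 := ChunkP.R k36 g24
theorem g26 : ChunkP 38 39 1024 1280 72 80 1536 2484 := ChunkP.R k35 g25
theorem g27 : ChunkP 38 39 1024 1280 72 80 1392 2484 := ChunkP.R k34 g26
theorem g28 : ChunkP 38 39 1024 1280 64 80 1392 2484 := ChunkP.g k33 g27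
theorem g29 : ChunkP 38 39 1024 1280 64 80 1344 2484 := ChunkP.R k32 g28
theorem g30 : ChunkP 38 39 1024 1280 64 80 1296 2484 := ChunkP.R k31 g29
theorem g31 : ChunkP 38 39 1024 1280 64 80 1200 2484 := ChunkP.R k30 g30
theorem g32 : ChunkP 38 39 1024 1280 64 80 1008 2484 := ChunkP.R k29 g31
theorem g33 : ChunkP 38 39 1024 1280 64 80 528 2484 := ChunkP.R k28 g32
theorem g34 : ChunkP 38 39 1024 1536 64 80 528 2484 := ChunkP.r g33 k39
theorem g35 : ChunkP 38 39 1024 1536 64 80 480 2484 := ChunkP.R k27 g34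
theorem g36 : ChunkP 38 39 1024 1536 64 80 0 2484 := ChunkP.R k26 g35
theorem g37 : ChunkP 38 39 1024 1280 80 96 864 2484 := ChunkP.g k45 k46
theorem g38 : ChunkP 38 39 1024 1280 80 96 816 2484 := ChunkP.R k44 g37
theorem g39 : ChunkP 38 39 1024 1280 80 96 720 2484 := ChunkP.R k43 g38
theorem g40 : ChunkP 38 39 1024 1280 80 96 528 2484 := ChunkP.R k42 g39
theorem g41 : ChunkP 38 39 1024 1536 80 96 528 2484 := ChunkP.r g40 k47
theorem g42 : ChunkP 38 39 1024 1536 80 96 480 2484 := ChunkP.R k41 g41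
theorem g43 : ChunkP 38 39 1024 1536 80 96 0 2484 := ChunkP.R k40 g42
theorem g44 : ChunkP 38 39 1024 1536 64 96 0 2484 := ChunkP.g g36 g43
theorem g45 : ChunkP 38 39 1024 1536 64 101 0 2484 := ChunkP.g g44 k48
theorem g46 : ChunkP 38 39 1024 1536 0 101 0 2484 := ChunkP.g k25 g45
theorem g47 : ChunkP 38 39 1536 2048 0 101 0 2484 := ChunkP.g k49 k50
theorem g48 : ChunkP 38 39 1024 2048 0 101 0 2484 := ChunkP.r g46 g47
theorem g49 : ChunkP 38 39 0 2048 0 101 0 2484 := ChunkP.r g23 g48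
theorem g50 : ChunkP 38 39 2048 3072 0 101 0 2484 := ChunkP.r k51 k52
theorem g51 : ChunkP 38 39 2048 4096 0 101 0 2484 := ChunkP.r g50 k53
theorem g52 : ChunkP 38 39 0 4096 0 101 0 2484 := ChunkP.r g49 g51

/-- the whole box -/
theorem allBox : ChunkP 38 39 0 4096 0 101 0 2484 := g52

theorem full {N : ℕ} (hNa : 38 ≤ N) (hNb : N ≤ 39) {z w : Fin N → ℂ} {R : ℝ} {σ : Fin N → ℂ}
    (hC : Pool.Agent.Lib.MP_af3a4a_an.P1.H80.Cfg2 N z w R σ) : ((2484 : ℕ) : ℝ) / 1024 < R := ChunkP.full allBox hNa hNb hC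

end Pool.Agent.Lib.MP_af3a4a_an.P1.CHK.DATA.N38x39
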